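import Pool.Agent.MP_96f5a9_co.h16.IISpec2

/-!
Almost equal generators: the income of a point under the flow.
-/

set_option autoImplicit false

namespace Pool.Agent.MP_96f5a9_co.H61

open Finset H51 H59 H80 WA H16

section scalar

variable {m s R L x v : ℕ} {gb ξ : ℝ} {q : ℕ → ℝ}

lemma fl_add (hm : 0 < m) (x v : ℕ) : fl m (x + v) = fl m x + fl m (x % m + v) := by
  unfold fl
  rw [← mul_add, ← Nat.cast_add]
  congr 2
  conv_lhs => rw [← Nat.div_add_mod x m, add_assoc, Nat.mul_add_div hm]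

lemma fl_mod (m x : ℕ) : fl m x + (x % m : ℕ) = x := by
  unfold fl
  exact_mod_cast Nat.div_add_mod x m

lemma fl_ge (hm : 0 < m) (x : ℕ) : (x : ℝ) - m ≤ fl m x := by
  have h1 := fl_mod m x
  have h2 : ((x % m : ℕ) : ℝ) ≤ m := by exact_mod_cast (Nat.mod_lt x hm).le
  linarith

lemma fl_nonneg (m x : ℕ) : 0 ≤ fl m x := by
  unfold fl
  positivity

lemma fl_low (hx : x < m) : fl m x = 0 := by simp [fl, Nat.div_eq_of_lt hx]

lemma le_fl (hm : 0 < m) (hx : m ≤ x) : (m : ℝ) ≤ fl m x := by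
  have h1 := fl_mono m hx
  have h2 : fl m m = m := by simp [fl, Nat.div_self hm]
  linarith

lemma bt_bd (hm : 0 < m) (h0 : 0 ≤ ξ) (h1 : ξ ≤ 1) (L x : ℕ) :
    0 ≤ bt m L ξ x ∧ bt m L ξ x ≤ m := by
  have hm' : (0 : ℝ) ≤ m := by positivity
  unfold bt
  split_ifs
  · exact ⟨le_rfl, hm'⟩
  · have a1 : ((x % m : ℕ) : ℝ) ≤ m := by exact_mod_cast (Nat.mod_lt x hm).le
    have a2 : 0 ≤ ((m : ℝ) - (x % m : ℕ)) / L := div_nonneg (by linarith) (by positivity)
    have a3 : max (1 - ((m : ℝ) - (x % m : ℕ)) / L) 0 ≤ 1 := max_le (by linarith) zero_le_one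
    have a4 : 0 ≤ max (1 - ((m : ℝ) - (x % m : ℕ)) / L) 0 := le_max_right _ _
    have a5 : 0 ≤ (m : ℝ) * (1 - ξ) := mul_nonneg hm' (by linarith)
    refine ⟨mul_nonneg a5 a4, ?_⟩
    nlinarith [mul_le_mul_of_nonneg_left a3 a5, mul_nonneg hm' h0]

lemma bt_zero (hL : 0 < L) (h : x % m + L ≤ m) : bt m L ξ x = 0 := by
  unfold bt
  split_ifs
  · rfl
  · have a1 : ((x % m : ℕ) : ℝ) + L ≤ m := by exact_mod_cast h
    have a2 : (0 : ℝ) < L := by exact_mod_cast hL
    have a3 : 1 ≤ ((m : ℝ) - (x % m : ℕ)) / L := by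
      rw [le_div_iff₀ a2]
      linarith
    rw [max_eq_right (by linarith), mul_zero]

lemma m_pos (h : Ref m s R gb q) : 0 < m := by
  have := h.R1
  have := h.Rm
  omega

lemma ratio (h : Ref m s R gb q) (h1 : v ≤ s + R) : (v : ℝ) / gb ≤ 9 / 8 := by
  have a1 : (v : ℝ) ≤ s + R := by exact_mod_cast h1
  rw [div_le_iff₀ h.pos]
  linarith [h.gb1, h.gbm, h.Rm']

lemma ref_part (h : Ref m s R gb q) (h1 : v ≤ s + R) (h2 : s ≤ v + R) (l : ℕ) :
    -(2 * (m : ℝ)) ≤ v / gb * (fl m (l + v) - gb * q l) := by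
  have a1 := ratio h h1
  have a2 : 0 ≤ (v : ℝ) / gb := div_nonneg (by positivity) h.pos.le
  have a3 := fl_ge (m_pos h) (l + v)
  have a4 : (s : ℝ) ≤ v + R := by exact_mod_cast h2
  have a5 : -(9 / 8 * (m : ℝ)) ≤ fl m (l + v) - gb * q l := by
    push_cast at a3
    linarith [h.up l, h.gb2, h.Rm']
  have a6 : (0 : ℝ) ≤ m := by positivity
  nlinarith [mul_le_mul_of_nonneg_left a5 a2, mul_le_mul_of_nonneg_right a1 a6]

lemma off_win (h : Ref m s R gb q) (h1 : v ≤ s + R) (h2 : s ≤ v + R) (hw : ¬ Win m s R L x) :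
    fl m (x % m + v) = gb * q (x % m) ∧ (x + v) % m + L ≤ m ∧ x % m + L ≤ m := by
  have hm := m_pos h
  have hR := h.Rm
  have hs := h.ms
  unfold Win at hw
  rw [← Nat.mod_add_mod x m] at hw
  rw [← Nat.mod_add_mod x m]
  generalize x % m = l at hw ⊢
  have e := Nat.div_add_mod (l + (s - 2 * R)) m
  generalize (l + (s - 2 * R)) / m = k at e
  generalize (l + (s - 2 * R)) % m = j at e hw
  have e1 : m * (k + 1) = m * k + m := by ring
  refine ⟨?_, ?_, by omega⟩
  · rw [fl_eq (k := k) (by omega) (by omega), h.flat l k (by omega) (by omega)]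
  · rw [show l + v = m * k + (j + (v - (s - 2 * R))) by omega, Nat.mul_add_mod,
      Nat.mod_eq_of_lt (by omega)]
    omega

end scalar

variable {ι : Type} {g γ : ι → ℕ} {Z C : Finset ι} {m s R M L x v : ℕ} {gb pR ε ξ : ℝ}
  {q r qh : ℕ → ℝ} {Fr : ι → ℕ → ℝ}

lemma b_step (h : Ref m s R gb q) (hr : Rare g Z m s R gb pR q Fr r qh) (hp : 0 < pR)
    (he : ε * pR = Z.card) (hx : m ≤ x) (h1 : v ≤ s + R) :
    -(ε * (51 / 8 * m + 12 * (m * fl m x / gb))) ≤
      (Z.card * fl m (x + v) - ∑ i ∈ Z, Fr i (x + v)) / pR -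
        (Z.card * fl m x - ∑ i ∈ Z, Fr i x) / pR := by
  have hm := m_pos h
  have hm' : (0 : ℝ) ≤ m := by positivity
  have a1 := mul_le_mul_of_nonneg_left (ratio h h1) hm'
  have a2 : (m : ℝ) * x / gb ≤ 2 * (m * fl m x / gb) := by
    rw [← mul_div_assoc]
    refine div_le_div_of_nonneg_right ?_ h.pos.le
    nlinarith [fl_ge hm x, le_fl hm hx]
  have a3 : ∑ i ∈ Z, (Fr i (x + v) - Fr i x) ≤
      ∑ _i ∈ Z, (fl m (x + v) - fl m x + (51 / 8 * m + 12 * (m * fl m x / gb))) := by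
    refine sum_le_sum fun i hi => ?_
    have b1 := (abs_le.1 (hr.near i hi x hx)).1
    have b2 := (abs_le.1 (hr.near i hi (x + v) (by omega))).2
    have b3 := fl_ge hm (x + v)
    have b4 := fl_le m x
    have b5 : 3 * (m : ℝ) * ((x + v : ℕ) : ℝ) / gb = 3 * (m * x / gb) + 3 * (m * (v / gb)) := by
      push_cast
      ring
    have b6 : 3 * (m : ℝ) * x / gb = 3 * (m * x / gb) := by ring
    rw [b5] at b2
    rw [b6] at b1
    push_cast at b2 b3
    linarith
  rw [sum_sub_distrib, sum_const, nsmul_eq_mul] at a3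
  rw [← sub_div, le_div_iff₀ hp, neg_mul, mul_right_comm, he]
  linarith

lemma r_bd (h : Ref m s R gb q) (hr : Rare g Z m s R gb pR q Fr r qh) (hp : 0 < pR)
    (he : ε * pR = Z.card) {l : ℕ} (hl : l < m) : gb * (r l - q l) ≤ 14 * (ε * m) := by
  have a1 := hr.qh_le l hl
  have a2 := mul_le_mul_of_nonneg_left (hr.r_le l hl) h.pos.le
  rw [← he] at a1
  have a3 : gb * (qh l - q l) ≤ 14 * (ε * m) := le_of_mul_le_mul_left (by linarith) hp
  linarith

variable [Fintype ι] [DecidableEq ι]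

lemma m_inc (hm : 0 < m) {z : ι → ℕ} (hz : wt g z ≤ M) :
    m * inc (ff g γ C M m L gb ξ Fr) z =
      ∑ k ∈ C, (z k : ℝ) * (g k / gb * BB C m Fr (M - wt g z + g k) +
          bt m L ξ (M - wt g z + g k) * hh C γ (z - ee k) k -
        (g k / gb * BB C m Fr (M - wt g z) + bt m L ξ (M - wt g z) * hh C γ z k)) +
      ∑ k ∈ Cᶜ, (z k : ℝ) * (Fr k (M - wt g z + g k) - Fr k (M - wt g z)) := by
  have hm' : (m : ℝ) ≠ 0 := by exact_mod_cast hm.ne'
  rw [inc, mul_sum, ← sum_add_sum_compl C]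
  congr 1
  · refine sum_congr rfl fun k hk => ?_
    rcases Nat.eq_zero_or_pos (z k) with c | c
    · simp [c]
    · rw [ff, ff, if_pos hk, if_pos hk, depth_sub hz c]
      field_simp
  · refine sum_congr rfl fun k hk => ?_
    rcases Nat.eq_zero_or_pos (z k) with c | c
    · simp [c]
    · rw [ff, ff, if_neg (mem_compl.1 hk), if_neg (mem_compl.1 hk), depth_sub hz c]
      field_simp

lemma wt_split (g : ι → ℕ) (C : Finset ι) (z : ι → ℕ) :
    (wt g z : ℝ) = ∑ k ∈ C, (z k : ℝ) * g k + ∑ k ∈ Cᶜ, (z k : ℝ) * g k := by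
  rw [sum_add_sum_compl, wt]
  push_cast
  rfl

/-- One central factor of a point below the top. -/
lemma factor (h : Ref m s R gb q) (hr : Rare g Cᶜ m s R gb C.card q Fr r qh) (hp : C.Nonempty)
    (he : ε * C.card = Cᶜ.card) (he0 : 0 ≤ ε) (h0 : 0 ≤ ξ) (h1 : ξ ≤ 1) (hL : 0 < L) (hx : m ≤ x)
    (v1 : v ≤ s + R) (v2 : s ≤ v + R) {a a' : ℝ} (ha : -1 ≤ a ∧ a ≤ 1) (ha' : -1 ≤ a' ∧ a' ≤ 1) :
    v * r (x % m) - ((if Win m s R L x then 4 * (m : ℝ) else 0) +
        ε * (27 * m + 14 * m * fl m x / gb)) ≤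
      v / gb * BB C m Fr (x + v) + bt m L ξ (x + v) * a' -
        (v / gb * BB C m Fr x + bt m L ξ x * a) := by
  have hm := m_pos h
  have hm' : (0 : ℝ) ≤ m := by positivity
  have hp' : (0 : ℝ) < C.card := by exact_mod_cast hp.card_pos
  have a1 := ratio h v1
  have a2 : 0 ≤ (v : ℝ) / gb := div_nonneg (by positivity) h.pos.le
  have a3 := b_step h hr hp' he hx v1
  have a4 := r_bd h hr hp' he (Nat.mod_lt x hm)
  have a5 : 0 ≤ m * fl m x / gb := div_nonneg (mul_nonneg hm' (fl_nonneg m x)) h.pos.le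
  have a6 : -(if Win m s R L x then 4 * (m : ℝ) else 0) ≤
      v / gb * (fl m (x % m + v) - gb * q (x % m)) + (bt m L ξ (x + v) * a' - bt m L ξ x * a) := by
    split_ifs with hw
    · have b1 := ref_part h v1 v2 (x % m)
      obtain ⟨b2, b3⟩ := bt_bd hm h0 h1 L x
      obtain ⟨b4, b5⟩ := bt_bd hm h0 h1 L (x + v)
      nlinarith [mul_le_mul_of_nonneg_left ha.2 b2, mul_le_mul_of_nonneg_left ha'.1 b4]
    · obtain ⟨b1, b2, b3⟩ := off_win h v1 v2 hw
      rw [b1, bt_zero hL b2, bt_zero hL b3]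
      simp
  have a7 : (v : ℝ) * r (x % m) = v / gb * (gb * r (x % m)) := by
    have := h.pos.ne'
    field_simp
  have a8 : ε * (27 * m + 14 * m * fl m x / gb) = 27 * (ε * m) + 14 * (ε * (m * fl m x / gb)) := by
    ring
  have a9 := mul_le_mul_of_nonneg_left a3 a2
  have a10 := mul_le_mul_of_nonneg_left a4 a2
  have a11 := mul_le_mul_of_nonneg_right a1 (mul_nonneg he0 hm')
  have a12 := mul_le_mul_of_nonneg_right a1 (mul_nonneg he0 a5)
  have a13 := mul_nonneg he0 hm'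
  have a14 := mul_nonneg he0 a5
  rw [a7, a8, BB, BB, fl_add hm x v] at *
  nlinarith

theorem nodeI : NodeIStmt := by
  intro ι _ _ g γ T m F s R R0 t w gb ε N q Fr r qh err H z hz
  have h := H.ref
  have hr := H.rare
  have hm := m_pos h
  have hm' : (0 : ℝ) < m := by exact_mod_cast hm
  have hz' := H.md.top z hz
  have hp' : (0 : ℝ) < (Nr g s R).card := by exact_mod_cast H.ne.card_pos
  have hC : ∀ k ∈ Nr g s R, g k ≤ s + R ∧ s ≤ g k + R := fun k hk => (mem_filter.1 hk).2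
  have hx : ((F + m - wt g z : ℕ) : ℝ) = (F + m : ℕ) - wt g z := Nat.cast_sub hz'
  have hsp := wt_split g (Nr g s R) z
  rw [mul_add, m_inc hm hz', show (m : ℝ) * aa g (F + m) m z = fl m (F + m - wt g z) from rfl]
  have hcell := H.cell z hz
  unfold dfc
  generalize F + m - wt g z = x at hx ⊢
  have hz0 : ∀ k, (0 : ℝ) ≤ z k := fun k => by positivity
  split_ifs with c
  · have e1 : BB (Nr g s R) m Fr x = 0 := by
      rw [BB, fl_low c, sum_eq_zero fun i hi => hr.zero i hi x c]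
      simp
    have e2 : bt m (3 * R * t ^ 2) (9 * ε + 2 * R / m) x = 0 := if_pos c
    have a1 := hcell x c
    have a2 : ∑ k ∈ (Nr g s R)ᶜ, (z k : ℝ) * g k * r x ≤
        ∑ k ∈ (Nr g s R)ᶜ, (z k : ℝ) * (Fr k (x + g k) - Fr k x) := by
      refine sum_le_sum fun k hk => ?_
      rw [hr.top k hk x c, hr.zero k hk x c, sub_zero, mul_assoc]
      exact mul_le_mul_of_nonneg_left
        (mul_le_mul_of_nonneg_left (hr.r_le x c) (by positivity)) (hz0 k)
    have a3 : ∑ k ∈ Nr g s R, ((z k : ℝ) * (g k / gb * fl m (x + g k) +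
          bt m (3 * R * t ^ 2) (9 * ε + 2 * R / m) (x + g k) * hh (Nr g s R) γ (z - ee k) k) +
          z k * g k * (r x - q x)) ≤
        ∑ k ∈ Nr g s R, (z k : ℝ) * (g k / gb * BB (Nr g s R) m Fr (x + g k) +
          bt m (3 * R * t ^ 2) (9 * ε + 2 * R / m) (x + g k) * hh (Nr g s R) γ (z - ee k) k) := by
      refine sum_le_sum fun k hk => ?_
      have b1 := hr.core x c (g k) (hC k hk).2 (hC k hk).1
      rw [mul_assoc, mul_comm, ← le_div_iff₀ hp'] at b1
      have b2 := mul_le_mul_of_nonneg_left b1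
        (div_nonneg (show (0 : ℝ) ≤ g k by positivity) h.pos.le)
      have b3 : (g k : ℝ) / gb * (gb * (r x - q x)) = g k * (r x - q x) := by
        have := h.pos.ne'
        field_simp
      rw [b3] at b2
      rw [mul_assoc (z k : ℝ), ← mul_add, BB]
      exact mul_le_mul_of_nonneg_left (by linarith) (hz0 k)
    rw [sum_add_distrib, ← sum_mul] at a3
    rw [← sum_mul] at a2
    simp only [wp, Nat.cast_sum, Nat.cast_mul] at a1
    simp only [e1, e2, mul_zero, zero_mul, add_zero, sub_zero]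
    rw [Nat.mod_eq_of_lt c, fl_low c, show ((F + m : ℕ) : ℝ) - x = wt g z by linarith, hsp]
    linarith
  all_goals
    have c' := not_lt.1 c
    have hR : (0 : ℝ) ≤ R := by positivity
    have he0 : 0 ≤ ε := by
      have : 0 ≤ ε * (Nr g s R).card := by
        rw [H.eps]
        positivity
      exact nonneg_of_mul_nonneg_left this hp'
    have x0 : 0 ≤ 9 * ε + 2 * R / m := by positivity
    have x1 : 9 * ε + 2 * R / m ≤ 1 := by
      have : 2 * (R : ℝ) / m ≤ 1 / 8 := by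
        rw [div_le_iff₀ hm']
        linarith [h.Rm']
      linarith [H.eps_le]
    have hL : 0 < 3 * R * t ^ 2 := by
      have := h.R1
      have := H.t1
      positivity
    have a1 := fun k (hk : k ∈ Nr g s R) => mul_le_mul_of_nonneg_left
      (factor h hr H.ne H.eps he0 x0 x1 hL c' (hC k hk).1 (hC k hk).2 (H.hh1 z k)
        (H.hh1 (z - ee k) k)) (hz0 k)
    have a2 := sum_le_sum a1
    have a3 : ∑ k ∈ (Nr g s R)ᶜ, (z k : ℝ) * (Fr k (x + g k) - Fr k x) =
        ∑ k ∈ (Nr g s R)ᶜ, (z k : ℝ) * g k :=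
      sum_congr rfl fun k hk => by rw [hr.non k hk x c', add_sub_cancel_left]
    have hZ0 : 0 ≤ ∑ k ∈ (Nr g s R)ᶜ, (z k : ℝ) * g k :=
      sum_nonneg fun k _ => by positivity
    have a4 : ∑ k ∈ Nr g s R, (z k : ℝ) ≤ N := by
      have b1 : (∑ k ∈ Nr g s R, (z k : ℝ)) * (s - R) ≤ ∑ k ∈ Nr g s R, (z k : ℝ) * g k := by
        rw [sum_mul]
        refine sum_le_sum fun k hk => mul_le_mul_of_nonneg_left ?_ (hz0 k)
        have : (s : ℝ) ≤ g k + R := by exact_mod_cast (hC k hk).2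
        linarith
      have b2 : (m : ℝ) ≤ s := by exact_mod_cast h.ms
      have b3 : (0 : ℝ) ≤ x := by positivity
      exact le_of_mul_le_mul_right (by linarith [H.N1]) (show (0 : ℝ) < s - R by linarith [h.Rm'])
    have a5 : r (x % m) ≤ 1 + 2 * m / gb := by
      have b1 := r_bd h hr hp' H.eps (Nat.mod_lt x hm)
      have b2 := h.up (x % m)
      have b3 : ((x % m : ℕ) : ℝ) ≤ m := by exact_mod_cast (Nat.mod_lt x hm).le
      have b4 := mul_le_mul_of_nonneg_right H.eps_le hm'.le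
      rw [← sub_le_iff_le_add', le_div_iff₀ h.pos]
      nlinarith
    have a6 := mul_le_mul_of_nonneg_left a5 (add_nonneg hZ0 (fl_nonneg m x))
    have a7 : 0 ≤ ε * (27 * m + 14 * m * fl m x / gb) :=
      mul_nonneg he0 (add_nonneg (by positivity)
        (div_nonneg (mul_nonneg (by positivity) (fl_nonneg m x)) h.pos.le))
    have a8 := mul_le_mul_of_nonneg_right a4 a7
    have a9 := mul_le_mul_of_nonneg_right a4 hm'.le
    simp only [mul_sub (z _ : ℝ) (_ * r _), ← mul_assoc (z _ : ℝ) (g _ : ℝ), sum_sub_distrib,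
      ← sum_mul, *, if_true, if_false] at a2
    simp only [wp, Nat.cast_sum, Nat.cast_mul]
    rw [a3, show ((F + m : ℕ) : ℝ) - (x % m : ℕ) = wt g z + fl m x by linarith [fl_mod m x], hsp]
    nlinarith

end Pool.Agent.MP_96f5a9_co.H61
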